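import Pool.Agent.H20.RT.Pat

/-!
Board rt, row C3.
-/

set_option autoImplicit false

namespace Pool.RT

theorem C3_thm (hSTP : STPStmt) : C3Stmt := by
  intro a b
  have h := hSTP (wl 0 0 0 0 0 0 (a + 1) (a + 1 + b) 0)
    (List.replicate 1 5 ++ (List.replicate a 6 ++ (List.replicate b 7 ++
      (List.replicate (a + 1) 6 ++ List.replicate 1 1)))) 1 0 0 0 1 (2 * a + 1) b 0 0
    (by
      intro x hx
      simp only [wl, List.mem_append, List.mem_replicate] at hx
      omega)
    (by
      intro x hx
      simp only [List.mem_append, List.mem_replicate] at hx
      omega)
    (by
      simp only [wl, List.replicate_zero, List.nil_append, List.append_nil, List.reverse_nil,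
        List.reverse_append, List.reverse_replicate, Nat.ofDigits_nil, List.length_nil, Nat.ofDigits_append, od_rep, List.length_replicate, pow_R, R_add,
        R_one]
      ring)
    (by simp [List.count_append, List.count_replicate])
    (by simp [List.count_append, List.count_replicate])
    (by simp [List.count_append, List.count_replicate])
    (by simp [List.count_append, List.count_replicate])
    (by simp [List.count_append, List.count_replicate])
    (by simp [List.count_append, List.count_replicate]; try ring)
    (by simp [List.count_append, List.count_replicate])
    (by simp [List.count_append, List.count_replicate])
    (by simp [List.count_append, List.count_replicate])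
  exact h

end Pool.RT
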